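import Pool.Agent.MP_8b309d_co.TInt

/-! automatically generated: pointwise inequalities for the relation `ee` -/

namespace BD.T

theorem ee_c1_e0 (w q p a o : ℕ) :
    t (w + 1) (q + 1) (p) (a) (o) * t (w) (q) (p + 1) (a + 1) (o)
      ≤ t (w) (q + 1) (p) (a + 1) (o) * t (w + 1) (q) (p + 1) (a) (o) := by
  have ha : t (w) (q + 1) (p) (a + 1) (o) * ((1 * 1 * 1 * 1 * (a + 1) * 1 * (2*q + a + 2*p + 2*o + 4) * 1 : ℕ) : ℚ)
      = t (w + 1) (q + 1) (p) (a) (o) * (((q + a + p + o + 2) * 1 * 1 * 1 * 1 * 1 * 1 * (w + 1) : ℕ) : ℚ) := by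
    unfold t
    exact comb8 (Fu1 _ _ (q + a + p + o + 2) (by omega) (by omega))
      (s0 F _ _ (by omega))
      (s0 I _ _ (by omega))
      (s0 I _ _ (by omega))
      (Iu1 _ _ (a + 1) (by omega) (by omega))
      (s0 I _ _ (by omega))
      (Iu1 _ _ (2*q + a + 2*p + 2*o + 4) (by omega) (by omega))
      (Id1 _ _ (w + 1) (by omega) (by omega))
  have hb : t (w + 1) (q) (p + 1) (a) (o) * (((q + a + p + o + 2) * 1 * 1 * 1 * 1 * 1 * 1 * (w + 1) : ℕ) : ℚ)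
      = t (w) (q) (p + 1) (a + 1) (o) * ((1 * 1 * 1 * 1 * (a + 1) * 1 * (2*q + a + 2*p + 2*o + 4) * 1 : ℕ) : ℚ) := by
    unfold t
    exact comb8 (Fd1 _ _ (q + a + p + o + 2) (by omega) (by omega))
      (s0 F _ _ (by omega))
      (s0 I _ _ (by omega))
      (s0 I _ _ (by omega))
      (Id1 _ _ (a + 1) (by omega) (by omega))
      (s0 I _ _ (by omega))
      (Id1 _ _ (2*q + a + 2*p + 2*o + 4) (by omega) (by omega))
      (Iu1 _ _ (w + 1) (by omega) (by omega))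
  have key : ∀ x0 x1 x2 x3 y0 y1 y2 y3 : ℕ, ∀ (g0 : y2 ≤ x0) (g1 : y3 ≤ x1) (g2 : y0 ≤ x2) (g3 : y1 ≤ x3),
      (1 * 1 * 1 * 1 * y0 * 1 * y1 * 1) * (y2 * 1 * 1 * 1 * 1 * 1 * 1 * y3)
        ≤ (x0 * 1 * 1 * 1 * 1 * 1 * 1 * x1) * (1 * 1 * 1 * 1 * x2 * 1 * x3 * 1) := by
    intro x0 x1 x2 x3 y0 y1 y2 y3 g0 g1 g2 g3
    calc (1 * 1 * 1 * 1 * y0 * 1 * y1 * 1) * (y2 * 1 * 1 * 1 * 1 * 1 * 1 * y3)
        = (y2) * (y3) * (y0) * (y1) := by ring
      _ ≤ (x0) * (x1) * (x2) * (x3) := (Nat.mul_le_mul (Nat.mul_le_mul (Nat.mul_le_mul g0 g1) g2) g3)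
      _ = _ := by ring
  refine fin ha hb (t_pos _ _ _ _ _) (t_pos _ _ _ _ _) (by positivity) ?_
  exact key (q + a + p + o + 2) (w + 1) (a + 1) (2*q + a + 2*p + 2*o + 4) (a + 1) (2*q + a + 2*p + 2*o + 4) (q + a + p + o + 2) (w + 1)
    (le_refl _)
    (le_refl _)
    (le_refl _)
    (le_refl _)

theorem ee_c1_g1 (w q p a o r : ℕ) :
    t (r + w + 2) (q) (r + p) (a) (o) * t (w) (r + q) (p) (r + a + 2) (o)
      ≤ t (r + w + 1) (q) (r + p) (a + 1) (o) * t (w + 1) (r + q) (p) (r + a + 1) (o) := by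
  have ha : t (r + w + 1) (q) (r + p) (a + 1) (o) * ((1 * 1 * 1 * 1 * (a + 1) * 1 * (2*r + 2*q + a + 2*p + 2*o + 2) * 1 : ℕ) : ℚ)
      = t (r + w + 2) (q) (r + p) (a) (o) * (((r + q + a + p + o + 1) * 1 * 1 * 1 * 1 * 1 * 1 * (r + w + 2) : ℕ) : ℚ) := by
    unfold t
    exact comb8 (Fu1 _ _ (r + q + a + p + o + 1) (by omega) (by omega))
      (s0 F _ _ (by omega))
      (s0 I _ _ (by omega))
      (s0 I _ _ (by omega))
      (Iu1 _ _ (a + 1) (by omega) (by omega))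
      (s0 I _ _ (by omega))
      (Iu1 _ _ (2*r + 2*q + a + 2*p + 2*o + 2) (by omega) (by omega))
      (Id1 _ _ (r + w + 2) (by omega) (by omega))
  have hb : t (w + 1) (r + q) (p) (r + a + 1) (o) * (((2*r + q + a + p + o + 2) * 1 * 1 * 1 * 1 * 1 * 1 * (w + 1) : ℕ) : ℚ)
      = t (w) (r + q) (p) (r + a + 2) (o) * ((1 * 1 * 1 * 1 * (r + a + 2) * 1 * (3*r + 2*q + a + 2*p + 2*o + 3) * 1 : ℕ) : ℚ) := by
    unfold t
    exact comb8 (Fd1 _ _ (2*r + q + a + p + o + 2) (by omega) (by omega))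
      (s0 F _ _ (by omega))
      (s0 I _ _ (by omega))
      (s0 I _ _ (by omega))
      (Id1 _ _ (r + a + 2) (by omega) (by omega))
      (s0 I _ _ (by omega))
      (Id1 _ _ (3*r + 2*q + a + 2*p + 2*o + 3) (by omega) (by omega))
      (Iu1 _ _ (w + 1) (by omega) (by omega))
  have key : ∀ x0 x1 x2 x3 y0 y1 y2 y3 : ℕ, ∀ (g0 : y0 * y2 ≤ x0 * x2) (g1 : y1 ≤ x3) (g2 : y3 ≤ x1),
      (1 * 1 * 1 * 1 * y0 * 1 * y1 * 1) * (y2 * 1 * 1 * 1 * 1 * 1 * 1 * y3)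
        ≤ (x0 * 1 * 1 * 1 * 1 * 1 * 1 * x1) * (1 * 1 * 1 * 1 * x2 * 1 * x3 * 1) := by
    intro x0 x1 x2 x3 y0 y1 y2 y3 g0 g1 g2
    calc (1 * 1 * 1 * 1 * y0 * 1 * y1 * 1) * (y2 * 1 * 1 * 1 * 1 * 1 * 1 * y3)
        = (y0 * y2) * (y1) * (y3) := by ring
      _ ≤ (x0 * x2) * (x3) * (x1) := (Nat.mul_le_mul (Nat.mul_le_mul g0 g1) g2)
      _ = _ := by ring
  refine fin ha hb (t_pos _ _ _ _ _) (t_pos _ _ _ _ _) (by positivity) ?_
  exact key (r + q + a + p + o + 1) (r + w + 2) (r + a + 2) (3*r + 2*q + a + 2*p + 2*o + 3) (a + 1) (2*r + 2*q + a + 2*p + 2*o + 2) (2*r + q + a + p + o + 2) (w + 1)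
    (Nat.le.intro (k := r^2 + q*r + p*r + o*r + r + q + p + o) (by ring))
    (by omega)
    (by omega)

theorem ee_c2_e0 (w q p a o : ℕ) :
    t (w + 1) (q + 1) (p) (a) (o) * t (w) (q) (p + 1) (a + 1) (o)
      ≤ t (w + 1) (q) (p + 1) (a) (o) * t (w) (q + 1) (p) (a + 1) (o) := by
  have ha : t (w + 1) (q) (p + 1) (a) (o) * ((1 * 1 * 1 * (p + 1) * 1 * 1 * 1 * 1 : ℕ) : ℚ)
      = t (w + 1) (q + 1) (p) (a) (o) * ((1 * 1 * 1 * 1 * 1 * (q + 1) * 1 * 1 : ℕ) : ℚ) := by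
    unfold t
    exact comb8 (s0 F _ _ (by omega))
      (s0 F _ _ (by omega))
      (s0 I _ _ (by omega))
      (Iu1 _ _ (p + 1) (by omega) (by omega))
      (s0 I _ _ (by omega))
      (Id1 _ _ (q + 1) (by omega) (by omega))
      (s0 I _ _ (by omega))
      (s0 I _ _ (by omega))
  have hb : t (w) (q + 1) (p) (a + 1) (o) * ((1 * 1 * 1 * 1 * 1 * (q + 1) * 1 * 1 : ℕ) : ℚ)
      = t (w) (q) (p + 1) (a + 1) (o) * ((1 * 1 * 1 * (p + 1) * 1 * 1 * 1 * 1 : ℕ) : ℚ) := by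
    unfold t
    exact comb8 (s0 F _ _ (by omega))
      (s0 F _ _ (by omega))
      (s0 I _ _ (by omega))
      (Id1 _ _ (p + 1) (by omega) (by omega))
      (s0 I _ _ (by omega))
      (Iu1 _ _ (q + 1) (by omega) (by omega))
      (s0 I _ _ (by omega))
      (s0 I _ _ (by omega))
  have key : ∀ x0 x1 y0 y1 : ℕ, ∀ (g0 : y1 ≤ x0) (g1 : y0 ≤ x1),
      (1 * 1 * 1 * y0 * 1 * 1 * 1 * 1) * (1 * 1 * 1 * 1 * 1 * y1 * 1 * 1)
        ≤ (1 * 1 * 1 * 1 * 1 * x0 * 1 * 1) * (1 * 1 * 1 * x1 * 1 * 1 * 1 * 1) := by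
    intro x0 x1 y0 y1 g0 g1
    calc (1 * 1 * 1 * y0 * 1 * 1 * 1 * 1) * (1 * 1 * 1 * 1 * 1 * y1 * 1 * 1)
        = (y1) * (y0) := by ring
      _ ≤ (x0) * (x1) := (Nat.mul_le_mul g0 g1)
      _ = _ := by ring
  refine fin ha hb (t_pos _ _ _ _ _) (t_pos _ _ _ _ _) (by positivity) ?_
  exact key (q + 1) (p + 1) (p + 1) (q + 1)
    (le_refl _)
    (le_refl _)

theorem ee_c2_g1 (w q p a o r : ℕ) :
    t (w) (r + q + 2) (p) (r + a) (o) * t (r + w) (q) (r + p + 2) (a) (o)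
      ≤ t (w) (r + q + 1) (p + 1) (r + a) (o) * t (r + w) (q + 1) (r + p + 1) (a) (o) := by
  have ha : t (w) (r + q + 1) (p + 1) (r + a) (o) * ((1 * 1 * 1 * (p + 1) * 1 * 1 * 1 * 1 : ℕ) : ℚ)
      = t (w) (r + q + 2) (p) (r + a) (o) * ((1 * 1 * 1 * 1 * 1 * (r + q + 2) * 1 * 1 : ℕ) : ℚ) := by
    unfold t
    exact comb8 (s0 F _ _ (by omega))
      (s0 F _ _ (by omega))
      (s0 I _ _ (by omega))
      (Iu1 _ _ (p + 1) (by omega) (by omega))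
      (s0 I _ _ (by omega))
      (Id1 _ _ (r + q + 2) (by omega) (by omega))
      (s0 I _ _ (by omega))
      (s0 I _ _ (by omega))
  have hb : t (r + w) (q + 1) (r + p + 1) (a) (o) * ((1 * 1 * 1 * 1 * 1 * (q + 1) * 1 * 1 : ℕ) : ℚ)
      = t (r + w) (q) (r + p + 2) (a) (o) * ((1 * 1 * 1 * (r + p + 2) * 1 * 1 * 1 * 1 : ℕ) : ℚ) := by
    unfold t
    exact comb8 (s0 F _ _ (by omega))
      (s0 F _ _ (by omega))
      (s0 I _ _ (by omega))
      (Id1 _ _ (r + p + 2) (by omega) (by omega))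
      (s0 I _ _ (by omega))
      (Iu1 _ _ (q + 1) (by omega) (by omega))
      (s0 I _ _ (by omega))
      (s0 I _ _ (by omega))
  have key : ∀ x0 x1 y0 y1 : ℕ, ∀ (g0 : y0 ≤ x1) (g1 : y1 ≤ x0),
      (1 * 1 * 1 * y0 * 1 * 1 * 1 * 1) * (1 * 1 * 1 * 1 * 1 * y1 * 1 * 1)
        ≤ (1 * 1 * 1 * 1 * 1 * x0 * 1 * 1) * (1 * 1 * 1 * x1 * 1 * 1 * 1 * 1) := by
    intro x0 x1 y0 y1 g0 g1
    calc (1 * 1 * 1 * y0 * 1 * 1 * 1 * 1) * (1 * 1 * 1 * 1 * 1 * y1 * 1 * 1)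
        = (y0) * (y1) := by ring
      _ ≤ (x1) * (x0) := (Nat.mul_le_mul g0 g1)
      _ = _ := by ring
  refine fin ha hb (t_pos _ _ _ _ _) (t_pos _ _ _ _ _) (by positivity) ?_
  exact key (r + q + 2) (r + p + 2) (p + 1) (q + 1)
    (by omega)
    (by omega)

theorem ad_ee (n e o k P Q : ℤ) :
    T n e o k P * T n (e + 2) o k (Q + 1)
      ≤ T n (e + 1) o k (max P Q) * T n (e + 1) o k (min P Q + 1) := by
  refine T_red (mul_nonneg (T_nonneg _ _ _ _ _) (T_nonneg _ _ _ _ _)) ?_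
  rintro ⟨a1, a2, a3, a4, a5⟩ ⟨b1, b2, b3, b4, b5⟩
  rcases le_total Q P with hqp | hqp
  · rw [max_eq_left hqp, min_eq_right hqp]
    rcases (show P = Q + 0 ∨ Q + 1 ≤ P by omega) with hr | hr
    ·
      obtain ⟨w, hw⟩ := Int.eq_ofNat_of_zero_le (show (0 : ℤ) ≤ n - e - o - 2 * k + P - 1 by omega)
      obtain ⟨q, hq⟩ := Int.eq_ofNat_of_zero_le (show (0 : ℤ) ≤ k - P - 1 by omega)
      obtain ⟨pp, hpp⟩ := Int.eq_ofNat_of_zero_le (show (0 : ℤ) ≤ P by omega)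
      obtain ⟨a, ha⟩ := Int.eq_ofNat_of_zero_le (show (0 : ℤ) ≤ e - P by omega)
      obtain ⟨oo, hoo⟩ := Int.eq_ofNat_of_zero_le (show (0 : ℤ) ≤ o - 1 by omega)
      have h1 : T n e o k P = t (w + 1) (q + 1) (pp) (a) (oo) :=
        T_eq (by omega) (by omega) (by omega) (by omega) (by omega)
      have h2 : T n (e + 2) o k (Q + 1) = t (w) (q) (pp + 1) (a + 1) (oo) :=
        T_eq (by omega) (by omega) (by omega) (by omega) (by omega)
      have h3 : T n (e + 1) o k P = t (w) (q + 1) (pp) (a + 1) (oo) :=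
        T_eq (by omega) (by omega) (by omega) (by omega) (by omega)
      have h4 : T n (e + 1) o k (Q + 1) = t (w + 1) (q) (pp + 1) (a) (oo) :=
        T_eq (by omega) (by omega) (by omega) (by omega) (by omega)
      rw [h1, h2, h3, h4]
      have hc := ee_c1_e0 w q pp a oo
      exact hc
    obtain ⟨r, hr2⟩ := Int.eq_ofNat_of_zero_le (show (0 : ℤ) ≤ P - Q - 1 by omega)
    obtain ⟨w, hw⟩ := Int.eq_ofNat_of_zero_le (show (0 : ℤ) ≤ n - e - o - 2 * k + P - 2 - r by omega)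
    obtain ⟨q, hq⟩ := Int.eq_ofNat_of_zero_le (show (0 : ℤ) ≤ k - P by omega)
    obtain ⟨pp, hpp⟩ := Int.eq_ofNat_of_zero_le (show (0 : ℤ) ≤ P - r by omega)
    obtain ⟨a, ha⟩ := Int.eq_ofNat_of_zero_le (show (0 : ℤ) ≤ e - P by omega)
    obtain ⟨oo, hoo⟩ := Int.eq_ofNat_of_zero_le (show (0 : ℤ) ≤ o - 1 by omega)
    have h1 : T n e o k P = t (r + w + 2) (q) (r + pp) (a) (oo) :=
      T_eq (by omega) (by omega) (by omega) (by omega) (by omega)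
    have h2 : T n (e + 2) o k (Q + 1) = t (w) (r + q) (pp) (r + a + 2) (oo) :=
      T_eq (by omega) (by omega) (by omega) (by omega) (by omega)
    have h3 : T n (e + 1) o k P = t (r + w + 1) (q) (r + pp) (a + 1) (oo) :=
      T_eq (by omega) (by omega) (by omega) (by omega) (by omega)
    have h4 : T n (e + 1) o k (Q + 1) = t (w + 1) (r + q) (pp) (r + a + 1) (oo) :=
      T_eq (by omega) (by omega) (by omega) (by omega) (by omega)
    rw [h1, h2, h3, h4]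
    have hc := ee_c1_g1 w q pp a oo r
    exact hc
  · rw [max_eq_right hqp, min_eq_left hqp]
    rcases (show Q = P + 0 ∨ P + 1 ≤ Q by omega) with hr | hr
    ·
      obtain ⟨w, hw⟩ := Int.eq_ofNat_of_zero_le (show (0 : ℤ) ≤ n - e - o - 2 * k + P - 1 by omega)
      obtain ⟨q, hq⟩ := Int.eq_ofNat_of_zero_le (show (0 : ℤ) ≤ k - P - 1 by omega)
      obtain ⟨pp, hpp⟩ := Int.eq_ofNat_of_zero_le (show (0 : ℤ) ≤ P by omega)
      obtain ⟨a, ha⟩ := Int.eq_ofNat_of_zero_le (show (0 : ℤ) ≤ e - P by omega)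
      obtain ⟨oo, hoo⟩ := Int.eq_ofNat_of_zero_le (show (0 : ℤ) ≤ o - 1 by omega)
      have h1 : T n e o k P = t (w + 1) (q + 1) (pp) (a) (oo) :=
        T_eq (by omega) (by omega) (by omega) (by omega) (by omega)
      have h2 : T n (e + 2) o k (Q + 1) = t (w) (q) (pp + 1) (a + 1) (oo) :=
        T_eq (by omega) (by omega) (by omega) (by omega) (by omega)
      have h3 : T n (e + 1) o k (P + 1) = t (w + 1) (q) (pp + 1) (a) (oo) :=
        T_eq (by omega) (by omega) (by omega) (by omega) (by omega)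
      have h4 : T n (e + 1) o k Q = t (w) (q + 1) (pp) (a + 1) (oo) :=
        T_eq (by omega) (by omega) (by omega) (by omega) (by omega)
      rw [h1, h2, h3, h4]
      have hc := ee_c2_e0 w q pp a oo
      exact hc.trans (le_of_eq (mul_comm _ _))
    obtain ⟨r, hr2⟩ := Int.eq_ofNat_of_zero_le (show (0 : ℤ) ≤ Q - P - 1 by omega)
    obtain ⟨w, hw⟩ := Int.eq_ofNat_of_zero_le (show (0 : ℤ) ≤ n - e - o - 2 * k + P by omega)
    obtain ⟨q, hq⟩ := Int.eq_ofNat_of_zero_le (show (0 : ℤ) ≤ k - P - 2 - r by omega)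
    obtain ⟨pp, hpp⟩ := Int.eq_ofNat_of_zero_le (show (0 : ℤ) ≤ P by omega)
    obtain ⟨a, ha⟩ := Int.eq_ofNat_of_zero_le (show (0 : ℤ) ≤ e - P - r by omega)
    obtain ⟨oo, hoo⟩ := Int.eq_ofNat_of_zero_le (show (0 : ℤ) ≤ o - 1 by omega)
    have h1 : T n e o k P = t (w) (r + q + 2) (pp) (r + a) (oo) :=
      T_eq (by omega) (by omega) (by omega) (by omega) (by omega)
    have h2 : T n (e + 2) o k (Q + 1) = t (r + w) (q) (r + pp + 2) (a) (oo) :=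
      T_eq (by omega) (by omega) (by omega) (by omega) (by omega)
    have h3 : T n (e + 1) o k (P + 1) = t (w) (r + q + 1) (pp + 1) (r + a) (oo) :=
      T_eq (by omega) (by omega) (by omega) (by omega) (by omega)
    have h4 : T n (e + 1) o k Q = t (r + w) (q + 1) (r + pp + 1) (a) (oo) :=
      T_eq (by omega) (by omega) (by omega) (by omega) (by omega)
    rw [h1, h2, h3, h4]
    have hc := ee_c2_g1 w q pp a oo r
    exact hc.trans (le_of_eq (mul_comm _ _))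

end BD.T
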