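import Pool.Agent.MP_8b309d_co.TInt

/-! automatically generated: pointwise inequalities for the relation `kk` -/

namespace BD.T

theorem kk_up (w q p a o r : ℕ) :
    t (w) (r + q + 3) (p) (r + a + 5) (o) * t (r + w + 1) (q) (r + p + 5) (a) (o)
      ≤ t (w + 1) (r + q + 2) (p + 1) (r + a + 4) (o) * t (r + w) (q + 1) (r + p + 4) (a + 1) (o) := by
  have ha : t (w + 1) (r + q + 2) (p + 1) (r + a + 4) (o) * (((2*r + q + a + p + o + 8) * 1 * 1 * (p + 1) * 1 * 1 * 1 * (w + 1) : ℕ) : ℚ)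
      = t (w) (r + q + 3) (p) (r + a + 5) (o) * ((1 * 1 * 1 * 1 * (r + a + 5) * (r + q + 3) * (3*r + 2*q + a + 2*p + 2*o + 12) * 1 : ℕ) : ℚ) := by
    unfold t
    exact comb8 (Fd1 _ _ (2*r + q + a + p + o + 8) (by omega) (by omega))
      (s0 F _ _ (by omega))
      (s0 I _ _ (by omega))
      (Iu1 _ _ (p + 1) (by omega) (by omega))
      (Id1 _ _ (r + a + 5) (by omega) (by omega))
      (Id1 _ _ (r + q + 3) (by omega) (by omega))
      (Id1 _ _ (3*r + 2*q + a + 2*p + 2*o + 12) (by omega) (by omega))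
      (Iu1 _ _ (w + 1) (by omega) (by omega))
  have hb : t (r + w) (q + 1) (r + p + 4) (a + 1) (o) * ((1 * 1 * 1 * 1 * (a + 1) * (q + 1) * (2*r + 2*q + a + 2*p + 2*o + 12) * 1 : ℕ) : ℚ)
      = t (r + w + 1) (q) (r + p + 5) (a) (o) * (((r + q + a + p + o + 6) * 1 * 1 * (r + p + 5) * 1 * 1 * 1 * (r + w + 1) : ℕ) : ℚ) := by
    unfold t
    exact comb8 (Fu1 _ _ (r + q + a + p + o + 6) (by omega) (by omega))
      (s0 F _ _ (by omega))
      (s0 I _ _ (by omega))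
      (Id1 _ _ (r + p + 5) (by omega) (by omega))
      (Iu1 _ _ (a + 1) (by omega) (by omega))
      (Iu1 _ _ (q + 1) (by omega) (by omega))
      (Iu1 _ _ (2*r + 2*q + a + 2*p + 2*o + 12) (by omega) (by omega))
      (Id1 _ _ (r + w + 1) (by omega) (by omega))
  have key : ∀ x0 x1 x2 x3 x4 x5 y0 y1 y2 y3 y4 y5 : ℕ, ∀ (g0 : y0 * y1 ≤ x3 * x4) (g1 : y2 ≤ x5) (g2 : y3 ≤ x0) (g3 : y4 ≤ x1) (g4 : y5 ≤ x2),
      (y0 * 1 * 1 * y1 * 1 * 1 * 1 * y2) * (1 * 1 * 1 * 1 * y3 * y4 * y5 * 1)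
        ≤ (1 * 1 * 1 * 1 * x0 * x1 * x2 * 1) * (x3 * 1 * 1 * x4 * 1 * 1 * 1 * x5) := by
    intro x0 x1 x2 x3 x4 x5 y0 y1 y2 y3 y4 y5 g0 g1 g2 g3 g4
    calc (y0 * 1 * 1 * y1 * 1 * 1 * 1 * y2) * (1 * 1 * 1 * 1 * y3 * y4 * y5 * 1)
        = (y0 * y1) * (y2) * (y3) * (y4) * (y5) := by ring
      _ ≤ (x3 * x4) * (x5) * (x0) * (x1) * (x2) := (Nat.mul_le_mul (Nat.mul_le_mul (Nat.mul_le_mul (Nat.mul_le_mul g0 g1) g2) g3) g4)
      _ = _ := by ring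
  refine fin ha hb (t_pos _ _ _ _ _) (t_pos _ _ _ _ _) (by positivity) ?_
  exact key (r + a + 5) (r + q + 3) (3*r + 2*q + a + 2*p + 2*o + 12) (r + q + a + p + o + 6) (r + p + 5) (r + w + 1) (2*r + q + a + p + o + 8) (p + 1) (w + 1) (a + 1) (q + 1) (2*r + 2*q + a + 2*p + 2*o + 12)
    (Nat.le.intro (k := r^2 + q*r + a*r + o*r + 9*r + 4*q + 4*a + 2*p + 4*o + 22) (by ring))
    (by omega)
    (by omega)
    (by omega)
    (by omega)

theorem kk_dn (w q p a o r : ℕ) :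
    t (r + w + 5) (q) (r + p + 1) (a) (o) * t (w) (r + q + 3) (p) (r + a + 1) (o)
      ≤ t (r + w + 4) (q + 1) (r + p) (a + 1) (o) * t (w + 1) (r + q + 2) (p + 1) (r + a) (o) := by
  have ha : t (r + w + 4) (q + 1) (r + p) (a + 1) (o) * ((1 * 1 * 1 * 1 * (a + 1) * (q + 1) * (2*r + 2*q + a + 2*p + 2*o + 4) * 1 : ℕ) : ℚ)
      = t (r + w + 5) (q) (r + p + 1) (a) (o) * (((r + q + a + p + o + 2) * 1 * 1 * (r + p + 1) * 1 * 1 * 1 * (r + w + 5) : ℕ) : ℚ) := by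
    unfold t
    exact comb8 (Fu1 _ _ (r + q + a + p + o + 2) (by omega) (by omega))
      (s0 F _ _ (by omega))
      (s0 I _ _ (by omega))
      (Id1 _ _ (r + p + 1) (by omega) (by omega))
      (Iu1 _ _ (a + 1) (by omega) (by omega))
      (Iu1 _ _ (q + 1) (by omega) (by omega))
      (Iu1 _ _ (2*r + 2*q + a + 2*p + 2*o + 4) (by omega) (by omega))
      (Id1 _ _ (r + w + 5) (by omega) (by omega))
  have hb : t (w + 1) (r + q + 2) (p + 1) (r + a) (o) * (((2*r + q + a + p + o + 4) * 1 * 1 * (p + 1) * 1 * 1 * 1 * (w + 1) : ℕ) : ℚ)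
      = t (w) (r + q + 3) (p) (r + a + 1) (o) * ((1 * 1 * 1 * 1 * (r + a + 1) * (r + q + 3) * (3*r + 2*q + a + 2*p + 2*o + 8) * 1 : ℕ) : ℚ) := by
    unfold t
    exact comb8 (Fd1 _ _ (2*r + q + a + p + o + 4) (by omega) (by omega))
      (s0 F _ _ (by omega))
      (s0 I _ _ (by omega))
      (Iu1 _ _ (p + 1) (by omega) (by omega))
      (Id1 _ _ (r + a + 1) (by omega) (by omega))
      (Id1 _ _ (r + q + 3) (by omega) (by omega))
      (Id1 _ _ (3*r + 2*q + a + 2*p + 2*o + 8) (by omega) (by omega))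
      (Iu1 _ _ (w + 1) (by omega) (by omega))
  have key : ∀ x0 x1 x2 x3 x4 x5 y0 y1 y2 y3 y4 y5 : ℕ, ∀ (g0 : y0 ≤ x3) (g1 : y1 * y3 ≤ x0 * x4) (g2 : y2 ≤ x5) (g3 : y4 ≤ x1) (g4 : y5 ≤ x2),
      (1 * 1 * 1 * 1 * y0 * y1 * y2 * 1) * (y3 * 1 * 1 * y4 * 1 * 1 * 1 * y5)
        ≤ (x0 * 1 * 1 * x1 * 1 * 1 * 1 * x2) * (1 * 1 * 1 * 1 * x3 * x4 * x5 * 1) := by
    intro x0 x1 x2 x3 x4 x5 y0 y1 y2 y3 y4 y5 g0 g1 g2 g3 g4
    calc (1 * 1 * 1 * 1 * y0 * y1 * y2 * 1) * (y3 * 1 * 1 * y4 * 1 * 1 * 1 * y5)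
        = (y0) * (y1 * y3) * (y2) * (y4) * (y5) := by ring
      _ ≤ (x3) * (x0 * x4) * (x5) * (x1) * (x2) := (Nat.mul_le_mul (Nat.mul_le_mul (Nat.mul_le_mul (Nat.mul_le_mul g0 g1) g2) g3) g4)
      _ = _ := by ring
  refine fin ha hb (t_pos _ _ _ _ _) (t_pos _ _ _ _ _) (by positivity) ?_
  exact key (r + q + a + p + o + 2) (r + p + 1) (r + w + 5) (r + a + 1) (r + q + 3) (3*r + 2*q + a + 2*p + 2*o + 8) (a + 1) (q + 1) (2*r + 2*q + a + 2*p + 2*o + 4) (2*r + q + a + p + o + 4) (p + 1) (w + 1)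
    (by omega)
    (Nat.le.intro (k := r^2 + a*r + p*r + o*r + 3*r + 2*a + 2*p + 2*o + 2) (by ring))
    (by omega)
    (by omega)
    (by omega)

theorem kk_b0 (w q p a o : ℕ) :
    t (w + 4) (q) (p) (a) (o) * t (w) (q + 2) (p) (a) (o)
      ≤ t (w + 2) (q + 1) (p) (a) (o) * t (w + 2) (q + 1) (p) (a) (o) := by
  have ha : t (w + 2) (q + 1) (p) (a) (o) * ((1 * 1 * 1 * 1 * 1 * (q + 1) * ((2*q + a + 2*p + 2*o + 2) * (2*q + a + 2*p + 2*o + 3)) * 1 : ℕ) : ℚ)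
      = t (w + 4) (q) (p) (a) (o) * (((q + a + p + o + 1) * 1 * 1 * 1 * 1 * 1 * 1 * ((w + 3) * (w + 4)) : ℕ) : ℚ) := by
    unfold t
    exact comb8 (Fu1 _ _ (q + a + p + o + 1) (by omega) (by omega))
      (s0 F _ _ (by omega))
      (s0 I _ _ (by omega))
      (s0 I _ _ (by omega))
      (s0 I _ _ (by omega))
      (Iu1 _ _ (q + 1) (by omega) (by omega))
      (Iu2 _ _ (2*q + a + 2*p + 2*o + 2) (2*q + a + 2*p + 2*o + 3) (by omega) (by omega) (by omega))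
      (Id2 _ _ (w + 3) (w + 4) (by omega) (by omega) (by omega))
  have hb : t (w + 2) (q + 1) (p) (a) (o) * (((q + a + p + o + 2) * 1 * 1 * 1 * 1 * 1 * 1 * ((w + 1) * (w + 2)) : ℕ) : ℚ)
      = t (w) (q + 2) (p) (a) (o) * ((1 * 1 * 1 * 1 * 1 * (q + 2) * ((2*q + a + 2*p + 2*o + 4) * (2*q + a + 2*p + 2*o + 5)) * 1 : ℕ) : ℚ) := by
    unfold t
    exact comb8 (Fd1 _ _ (q + a + p + o + 2) (by omega) (by omega))
      (s0 F _ _ (by omega))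
      (s0 I _ _ (by omega))
      (s0 I _ _ (by omega))
      (s0 I _ _ (by omega))
      (Id1 _ _ (q + 2) (by omega) (by omega))
      (Id2 _ _ (2*q + a + 2*p + 2*o + 4) (2*q + a + 2*p + 2*o + 5) (by omega) (by omega) (by omega))
      (Iu2 _ _ (w + 1) (w + 2) (by omega) (by omega) (by omega))
  have key : ∀ x0 x1 x2 x3 x4 x5 y0 y1 y2 y3 y4 y5 : ℕ, ∀ (g0 : y0 ≤ x3) (g1 : y1 * y3 ≤ x0 * x4) (g2 : y2 ≤ x5) (g3 : y4 ≤ x1) (g4 : y5 ≤ x2),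
      (1 * 1 * 1 * 1 * 1 * y0 * (y1 * y2) * 1) * (y3 * 1 * 1 * 1 * 1 * 1 * 1 * (y4 * y5))
        ≤ (x0 * 1 * 1 * 1 * 1 * 1 * 1 * (x1 * x2)) * (1 * 1 * 1 * 1 * 1 * x3 * (x4 * x5) * 1) := by
    intro x0 x1 x2 x3 x4 x5 y0 y1 y2 y3 y4 y5 g0 g1 g2 g3 g4
    calc (1 * 1 * 1 * 1 * 1 * y0 * (y1 * y2) * 1) * (y3 * 1 * 1 * 1 * 1 * 1 * 1 * (y4 * y5))
        = (y0) * (y1 * y3) * (y2) * (y4) * (y5) := by ring
      _ ≤ (x3) * (x0 * x4) * (x5) * (x1) * (x2) := (Nat.mul_le_mul (Nat.mul_le_mul (Nat.mul_le_mul (Nat.mul_le_mul g0 g1) g2) g3) g4)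
      _ = _ := by ring
  refine fin ha hb (t_pos _ _ _ _ _) (t_pos _ _ _ _ _) (by positivity) ?_
  exact key (q + a + p + o + 1) (w + 3) (w + 4) (q + 2) (2*q + a + 2*p + 2*o + 4) (2*q + a + 2*p + 2*o + 5) (q + 1) (2*q + a + 2*p + 2*o + 2) (2*q + a + 2*p + 2*o + 3) (q + a + p + o + 2) (w + 1) (w + 2)
    (by omega)
    (Nat.le.intro (k := a) (by ring))
    (by omega)
    (by omega)
    (by omega)

theorem kk_b1 (w q p a o : ℕ) :
    t (w + 3) (q) (p) (a + 1) (o) * t (w) (q + 1) (p + 1) (a) (o)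
      ≤ t (w + 1) (q + 1) (p) (a + 1) (o) * t (w + 2) (q) (p + 1) (a) (o) := by
  have ha : t (w + 1) (q + 1) (p) (a + 1) (o) * ((1 * 1 * 1 * 1 * 1 * (q + 1) * ((2*q + a + 2*p + 2*o + 3) * (2*q + a + 2*p + 2*o + 4)) * 1 : ℕ) : ℚ)
      = t (w + 3) (q) (p) (a + 1) (o) * (((q + a + p + o + 2) * 1 * 1 * 1 * 1 * 1 * 1 * ((w + 2) * (w + 3)) : ℕ) : ℚ) := by
    unfold t
    exact comb8 (Fu1 _ _ (q + a + p + o + 2) (by omega) (by omega))
      (s0 F _ _ (by omega))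
      (s0 I _ _ (by omega))
      (s0 I _ _ (by omega))
      (s0 I _ _ (by omega))
      (Iu1 _ _ (q + 1) (by omega) (by omega))
      (Iu2 _ _ (2*q + a + 2*p + 2*o + 3) (2*q + a + 2*p + 2*o + 4) (by omega) (by omega) (by omega))
      (Id2 _ _ (w + 2) (w + 3) (by omega) (by omega) (by omega))
  have hb : t (w + 2) (q) (p + 1) (a) (o) * (((q + a + p + o + 2) * 1 * 1 * 1 * 1 * 1 * 1 * ((w + 1) * (w + 2)) : ℕ) : ℚ)
      = t (w) (q + 1) (p + 1) (a) (o) * ((1 * 1 * 1 * 1 * 1 * (q + 1) * ((2*q + a + 2*p + 2*o + 4) * (2*q + a + 2*p + 2*o + 5)) * 1 : ℕ) : ℚ) := by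
    unfold t
    exact comb8 (Fd1 _ _ (q + a + p + o + 2) (by omega) (by omega))
      (s0 F _ _ (by omega))
      (s0 I _ _ (by omega))
      (s0 I _ _ (by omega))
      (s0 I _ _ (by omega))
      (Id1 _ _ (q + 1) (by omega) (by omega))
      (Id2 _ _ (2*q + a + 2*p + 2*o + 4) (2*q + a + 2*p + 2*o + 5) (by omega) (by omega) (by omega))
      (Iu2 _ _ (w + 1) (w + 2) (by omega) (by omega) (by omega))
  have key : ∀ x0 x1 x2 x3 x4 x5 y0 y1 y2 y3 y4 y5 : ℕ, ∀ (g0 : y3 ≤ x0) (g1 : y5 ≤ x1) (g2 : y0 ≤ x3) (g3 : y2 ≤ x4) (g4 : y1 ≤ x5) (g5 : y4 ≤ x2),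
      (1 * 1 * 1 * 1 * 1 * y0 * (y1 * y2) * 1) * (y3 * 1 * 1 * 1 * 1 * 1 * 1 * (y4 * y5))
        ≤ (x0 * 1 * 1 * 1 * 1 * 1 * 1 * (x1 * x2)) * (1 * 1 * 1 * 1 * 1 * x3 * (x4 * x5) * 1) := by
    intro x0 x1 x2 x3 x4 x5 y0 y1 y2 y3 y4 y5 g0 g1 g2 g3 g4 g5
    calc (1 * 1 * 1 * 1 * 1 * y0 * (y1 * y2) * 1) * (y3 * 1 * 1 * 1 * 1 * 1 * 1 * (y4 * y5))
        = (y3) * (y5) * (y0) * (y2) * (y1) * (y4) := by ring
      _ ≤ (x0) * (x1) * (x3) * (x4) * (x5) * (x2) := (Nat.mul_le_mul (Nat.mul_le_mul (Nat.mul_le_mul (Nat.mul_le_mul (Nat.mul_le_mul g0 g1) g2) g3) g4) g5)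
      _ = _ := by ring
  refine fin ha hb (t_pos _ _ _ _ _) (t_pos _ _ _ _ _) (by positivity) ?_
  exact key (q + a + p + o + 2) (w + 2) (w + 3) (q + 1) (2*q + a + 2*p + 2*o + 4) (2*q + a + 2*p + 2*o + 5) (q + 1) (2*q + a + 2*p + 2*o + 3) (2*q + a + 2*p + 2*o + 4) (q + a + p + o + 2) (w + 1) (w + 2)
    (le_refl _)
    (le_refl _)
    (le_refl _)
    (le_refl _)
    (by omega)
    (by omega)

theorem kk_b2 (w q p a o : ℕ) :
    t (w + 2) (q) (p) (a + 2) (o) * t (w) (q) (p + 2) (a) (o)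
      ≤ t (w + 1) (q) (p + 1) (a + 1) (o) * t (w + 1) (q) (p + 1) (a + 1) (o) := by
  have ha : t (w + 1) (q) (p + 1) (a + 1) (o) * ((1 * 1 * 1 * (p + 1) * 1 * 1 * (2*q + a + 2*p + 2*o + 4) * 1 : ℕ) : ℚ)
      = t (w + 2) (q) (p) (a + 2) (o) * ((1 * 1 * 1 * 1 * (a + 2) * 1 * 1 * (w + 2) : ℕ) : ℚ) := by
    unfold t
    exact comb8 (s0 F _ _ (by omega))
      (s0 F _ _ (by omega))
      (s0 I _ _ (by omega))
      (Iu1 _ _ (p + 1) (by omega) (by omega))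
      (Id1 _ _ (a + 2) (by omega) (by omega))
      (s0 I _ _ (by omega))
      (Iu1 _ _ (2*q + a + 2*p + 2*o + 4) (by omega) (by omega))
      (Id1 _ _ (w + 2) (by omega) (by omega))
  have hb : t (w + 1) (q) (p + 1) (a + 1) (o) * ((1 * 1 * 1 * 1 * (a + 1) * 1 * 1 * (w + 1) : ℕ) : ℚ)
      = t (w) (q) (p + 2) (a) (o) * ((1 * 1 * 1 * (p + 2) * 1 * 1 * (2*q + a + 2*p + 2*o + 5) * 1 : ℕ) : ℚ) := by
    unfold t
    exact comb8 (s0 F _ _ (by omega))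
      (s0 F _ _ (by omega))
      (s0 I _ _ (by omega))
      (Id1 _ _ (p + 2) (by omega) (by omega))
      (Iu1 _ _ (a + 1) (by omega) (by omega))
      (s0 I _ _ (by omega))
      (Id1 _ _ (2*q + a + 2*p + 2*o + 5) (by omega) (by omega))
      (Iu1 _ _ (w + 1) (by omega) (by omega))
  have key : ∀ x0 x1 x2 x3 y0 y1 y2 y3 : ℕ, ∀ (g0 : y0 ≤ x2) (g1 : y1 ≤ x3) (g2 : y2 ≤ x0) (g3 : y3 ≤ x1),
      (1 * 1 * 1 * y0 * 1 * 1 * y1 * 1) * (1 * 1 * 1 * 1 * y2 * 1 * 1 * y3)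
        ≤ (1 * 1 * 1 * 1 * x0 * 1 * 1 * x1) * (1 * 1 * 1 * x2 * 1 * 1 * x3 * 1) := by
    intro x0 x1 x2 x3 y0 y1 y2 y3 g0 g1 g2 g3
    calc (1 * 1 * 1 * y0 * 1 * 1 * y1 * 1) * (1 * 1 * 1 * 1 * y2 * 1 * 1 * y3)
        = (y0) * (y1) * (y2) * (y3) := by ring
      _ ≤ (x2) * (x3) * (x0) * (x1) := (Nat.mul_le_mul (Nat.mul_le_mul (Nat.mul_le_mul g0 g1) g2) g3)
      _ = _ := by ring
  refine fin ha hb (t_pos _ _ _ _ _) (t_pos _ _ _ _ _) (by positivity) ?_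
  exact key (a + 2) (w + 2) (p + 2) (2*q + a + 2*p + 2*o + 5) (p + 1) (2*q + a + 2*p + 2*o + 4) (a + 1) (w + 1)
    (by omega)
    (by omega)
    (by omega)
    (by omega)

theorem kk_b3 (w q p a o : ℕ) :
    t (w + 1) (q + 1) (p) (a + 3) (o) * t (w) (q) (p + 3) (a) (o)
      ≤ t (w) (q + 1) (p + 1) (a + 2) (o) * t (w + 1) (q) (p + 2) (a + 1) (o) := by
  have ha : t (w) (q + 1) (p + 1) (a + 2) (o) * ((1 * 1 * 1 * (p + 1) * 1 * 1 * (2*q + a + 2*p + 2*o + 7) * 1 : ℕ) : ℚ)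
      = t (w + 1) (q + 1) (p) (a + 3) (o) * ((1 * 1 * 1 * 1 * (a + 3) * 1 * 1 * (w + 1) : ℕ) : ℚ) := by
    unfold t
    exact comb8 (s0 F _ _ (by omega))
      (s0 F _ _ (by omega))
      (s0 I _ _ (by omega))
      (Iu1 _ _ (p + 1) (by omega) (by omega))
      (Id1 _ _ (a + 3) (by omega) (by omega))
      (s0 I _ _ (by omega))
      (Iu1 _ _ (2*q + a + 2*p + 2*o + 7) (by omega) (by omega))
      (Id1 _ _ (w + 1) (by omega) (by omega))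
  have hb : t (w + 1) (q) (p + 2) (a + 1) (o) * ((1 * 1 * 1 * 1 * (a + 1) * 1 * 1 * (w + 1) : ℕ) : ℚ)
      = t (w) (q) (p + 3) (a) (o) * ((1 * 1 * 1 * (p + 3) * 1 * 1 * (2*q + a + 2*p + 2*o + 7) * 1 : ℕ) : ℚ) := by
    unfold t
    exact comb8 (s0 F _ _ (by omega))
      (s0 F _ _ (by omega))
      (s0 I _ _ (by omega))
      (Id1 _ _ (p + 3) (by omega) (by omega))
      (Iu1 _ _ (a + 1) (by omega) (by omega))
      (s0 I _ _ (by omega))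
      (Id1 _ _ (2*q + a + 2*p + 2*o + 7) (by omega) (by omega))
      (Iu1 _ _ (w + 1) (by omega) (by omega))
  have key : ∀ x0 x1 x2 x3 y0 y1 y2 y3 : ℕ, ∀ (g0 : y3 ≤ x1) (g1 : y1 ≤ x3) (g2 : y0 ≤ x2) (g3 : y2 ≤ x0),
      (1 * 1 * 1 * y0 * 1 * 1 * y1 * 1) * (1 * 1 * 1 * 1 * y2 * 1 * 1 * y3)
        ≤ (1 * 1 * 1 * 1 * x0 * 1 * 1 * x1) * (1 * 1 * 1 * x2 * 1 * 1 * x3 * 1) := by
    intro x0 x1 x2 x3 y0 y1 y2 y3 g0 g1 g2 g3
    calc (1 * 1 * 1 * y0 * 1 * 1 * y1 * 1) * (1 * 1 * 1 * 1 * y2 * 1 * 1 * y3)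
        = (y3) * (y1) * (y0) * (y2) := by ring
      _ ≤ (x1) * (x3) * (x2) * (x0) := (Nat.mul_le_mul (Nat.mul_le_mul (Nat.mul_le_mul g0 g1) g2) g3)
      _ = _ := by ring
  refine fin ha hb (t_pos _ _ _ _ _) (t_pos _ _ _ _ _) (by positivity) ?_
  exact key (a + 3) (w + 1) (p + 3) (2*q + a + 2*p + 2*o + 7) (p + 1) (2*q + a + 2*p + 2*o + 7) (a + 1) (w + 1)
    (le_refl _)
    (le_refl _)
    (by omega)
    (by omega)

theorem kk_b4 (w q p a o : ℕ) :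
    t (w) (q + 2) (p) (a + 4) (o) * t (w) (q) (p + 4) (a) (o)
      ≤ t (w) (q + 1) (p + 2) (a + 2) (o) * t (w) (q + 1) (p + 2) (a + 2) (o) := by
  have ha : t (w) (q + 1) (p + 2) (a + 2) (o) * (((q + a + p + o + 6) * 1 * 1 * ((p + 1) * (p + 2)) * 1 * 1 * 1 * 1 : ℕ) : ℚ)
      = t (w) (q + 2) (p) (a + 4) (o) * ((1 * 1 * 1 * 1 * ((a + 3) * (a + 4)) * (q + 2) * 1 * 1 : ℕ) : ℚ) := by
    unfold t
    exact comb8 (Fd1 _ _ (q + a + p + o + 6) (by omega) (by omega))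
      (s0 F _ _ (by omega))
      (s0 I _ _ (by omega))
      (Iu2 _ _ (p + 1) (p + 2) (by omega) (by omega) (by omega))
      (Id2 _ _ (a + 3) (a + 4) (by omega) (by omega) (by omega))
      (Id1 _ _ (q + 2) (by omega) (by omega))
      (s0 I _ _ (by omega))
      (s0 I _ _ (by omega))
  have hb : t (w) (q + 1) (p + 2) (a + 2) (o) * ((1 * 1 * 1 * 1 * ((a + 1) * (a + 2)) * (q + 1) * 1 * 1 : ℕ) : ℚ)
      = t (w) (q) (p + 4) (a) (o) * (((q + a + p + o + 5) * 1 * 1 * ((p + 3) * (p + 4)) * 1 * 1 * 1 * 1 : ℕ) : ℚ) := by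
    unfold t
    exact comb8 (Fu1 _ _ (q + a + p + o + 5) (by omega) (by omega))
      (s0 F _ _ (by omega))
      (s0 I _ _ (by omega))
      (Id2 _ _ (p + 3) (p + 4) (by omega) (by omega) (by omega))
      (Iu2 _ _ (a + 1) (a + 2) (by omega) (by omega) (by omega))
      (Iu1 _ _ (q + 1) (by omega) (by omega))
      (s0 I _ _ (by omega))
      (s0 I _ _ (by omega))
  have key : ∀ x0 x1 x2 x3 x4 x5 y0 y1 y2 y3 y4 y5 : ℕ, ∀ (g0 : y0 * y1 ≤ x3 * x4) (g1 : y2 ≤ x5) (g2 : y3 ≤ x0) (g3 : y4 ≤ x1) (g4 : y5 ≤ x2),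
      (y0 * 1 * 1 * (y1 * y2) * 1 * 1 * 1 * 1) * (1 * 1 * 1 * 1 * (y3 * y4) * y5 * 1 * 1)
        ≤ (1 * 1 * 1 * 1 * (x0 * x1) * x2 * 1 * 1) * (x3 * 1 * 1 * (x4 * x5) * 1 * 1 * 1 * 1) := by
    intro x0 x1 x2 x3 x4 x5 y0 y1 y2 y3 y4 y5 g0 g1 g2 g3 g4
    calc (y0 * 1 * 1 * (y1 * y2) * 1 * 1 * 1 * 1) * (1 * 1 * 1 * 1 * (y3 * y4) * y5 * 1 * 1)
        = (y0 * y1) * (y2) * (y3) * (y4) * (y5) := by ring
      _ ≤ (x3 * x4) * (x5) * (x0) * (x1) * (x2) := (Nat.mul_le_mul (Nat.mul_le_mul (Nat.mul_le_mul (Nat.mul_le_mul g0 g1) g2) g3) g4)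
      _ = _ := by ring
  refine fin ha hb (t_pos _ _ _ _ _) (t_pos _ _ _ _ _) (by positivity) ?_
  exact key (a + 3) (a + 4) (q + 2) (q + a + p + o + 5) (p + 3) (p + 4) (q + a + p + o + 6) (p + 1) (p + 2) (a + 1) (a + 2) (q + 1)
    (Nat.le.intro (k := 2*q + 2*a + p + 2*o + 9) (by ring))
    (by omega)
    (by omega)
    (by omega)
    (by omega)

theorem klu_kk (n e o k P Q : ℤ) (hPQ : P + 5 ≤ Q) :
    T n e o k P * T n e o (k + 2) Q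
      ≤ T n e o k (P + 1) * T n e o (k + 2) (Q - 1) := by
  refine T_red (mul_nonneg (T_nonneg _ _ _ _ _) (T_nonneg _ _ _ _ _)) ?_
  rintro ⟨a1, a2, a3, a4, a5⟩ ⟨b1, b2, b3, b4, b5⟩
  obtain ⟨r, hr2⟩ := Int.eq_ofNat_of_zero_le (show (0 : ℤ) ≤ Q - P - (5) by omega)
  obtain ⟨w, hw⟩ := Int.eq_ofNat_of_zero_le (show (0 : ℤ) ≤ n - e - o - 2 * k + P by omega)
  obtain ⟨q, hq⟩ := Int.eq_ofNat_of_zero_le (show (0 : ℤ) ≤ k - P - 3 - r by omega)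
  obtain ⟨pp, hpp⟩ := Int.eq_ofNat_of_zero_le (show (0 : ℤ) ≤ P by omega)
  obtain ⟨a, ha⟩ := Int.eq_ofNat_of_zero_le (show (0 : ℤ) ≤ e - P - 5 - r by omega)
  obtain ⟨oo, hoo⟩ := Int.eq_ofNat_of_zero_le (show (0 : ℤ) ≤ o - 1 by omega)
  have h1 : T n e o k P = t (w) (r + q + 3) (pp) (r + a + 5) (oo) :=
    T_eq (by omega) (by omega) (by omega) (by omega) (by omega)
  have h2 : T n e o (k + 2) Q = t (r + w + 1) (q) (r + pp + 5) (a) (oo) :=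
    T_eq (by omega) (by omega) (by omega) (by omega) (by omega)
  have h3 : T n e o k (P + 1) = t (w + 1) (r + q + 2) (pp + 1) (r + a + 4) (oo) :=
    T_eq (by omega) (by omega) (by omega) (by omega) (by omega)
  have h4 : T n e o (k + 2) (Q - 1) = t (r + w) (q + 1) (r + pp + 4) (a + 1) (oo) :=
    T_eq (by omega) (by omega) (by omega) (by omega) (by omega)
  rw [h1, h2, h3, h4]
  exact kk_up w q pp a oo r

theorem kld_kk (n e o k P Q : ℤ) (hPQ : Q ≤ P - 1) :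
    T n e o k P * T n e o (k + 2) Q
      ≤ T n e o k (P - 1) * T n e o (k + 2) (Q + 1) := by
  refine T_red (mul_nonneg (T_nonneg _ _ _ _ _) (T_nonneg _ _ _ _ _)) ?_
  rintro ⟨a1, a2, a3, a4, a5⟩ ⟨b1, b2, b3, b4, b5⟩
  obtain ⟨r, hr2⟩ := Int.eq_ofNat_of_zero_le (show (0 : ℤ) ≤ P - Q + (-1) by omega)
  obtain ⟨w, hw⟩ := Int.eq_ofNat_of_zero_le (show (0 : ℤ) ≤ n - e - o - 2 * k + P - 5 - r by omega)
  obtain ⟨q, hq⟩ := Int.eq_ofNat_of_zero_le (show (0 : ℤ) ≤ k - P by omega)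
  obtain ⟨pp, hpp⟩ := Int.eq_ofNat_of_zero_le (show (0 : ℤ) ≤ P - 1 - r by omega)
  obtain ⟨a, ha⟩ := Int.eq_ofNat_of_zero_le (show (0 : ℤ) ≤ e - P by omega)
  obtain ⟨oo, hoo⟩ := Int.eq_ofNat_of_zero_le (show (0 : ℤ) ≤ o - 1 by omega)
  have h1 : T n e o k P = t (r + w + 5) (q) (r + pp + 1) (a) (oo) :=
    T_eq (by omega) (by omega) (by omega) (by omega) (by omega)
  have h2 : T n e o (k + 2) Q = t (w) (r + q + 3) (pp) (r + a + 1) (oo) :=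
    T_eq (by omega) (by omega) (by omega) (by omega) (by omega)
  have h3 : T n e o k (P - 1) = t (r + w + 4) (q + 1) (r + pp) (a + 1) (oo) :=
    T_eq (by omega) (by omega) (by omega) (by omega) (by omega)
  have h4 : T n e o (k + 2) (Q + 1) = t (w + 1) (r + q + 2) (pp + 1) (r + a) (oo) :=
    T_eq (by omega) (by omega) (by omega) (by omega) (by omega)
  rw [h1, h2, h3, h4]
  exact kk_dn w q pp a oo r

theorem klb_kk (n e o k P Q : ℤ) (h1 : -1 < Q - P) (h2 : Q - P < 5) :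
    T n e o k P * T n e o (k + 2) Q
      ≤ T n e o (k + 1) ((P + Q) / 2) * T n e o (k + 1) (P + Q - (P + Q) / 2) := by
  refine T_red (mul_nonneg (T_nonneg _ _ _ _ _) (T_nonneg _ _ _ _ _)) ?_
  rintro ⟨a1, a2, a3, a4, a5⟩ ⟨b1, b2, b3, b4, b5⟩
  have hD : P = Q ∨ Q = P + 1 ∨ Q = P + 2 ∨ Q = P + 3 ∨ Q = P + 4 := by omega
  rcases hD with hD | hD | hD | hD | hD
  · subst hD
    rw [show (P + P) / 2 = P by omega,
      show P + P - P = P by omega]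
    obtain ⟨w, hw⟩ := Int.eq_ofNat_of_zero_le (show (0 : ℤ) ≤ n - e - o - 2 * k + P - 4 by omega)
    obtain ⟨q, hq⟩ := Int.eq_ofNat_of_zero_le (show (0 : ℤ) ≤ k - P by omega)
    obtain ⟨pp, hpp⟩ := Int.eq_ofNat_of_zero_le (show (0 : ℤ) ≤ P by omega)
    obtain ⟨a, ha⟩ := Int.eq_ofNat_of_zero_le (show (0 : ℤ) ≤ e - P by omega)
    obtain ⟨oo, hoo⟩ := Int.eq_ofNat_of_zero_le (show (0 : ℤ) ≤ o - 1 by omega)
    have h1 : T n e o k P = t (w + 4) (q) (pp) (a) (oo) :=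
      T_eq (by omega) (by omega) (by omega) (by omega) (by omega)
    have h2 : T n e o (k + 2) P = t (w) (q + 2) (pp) (a) (oo) :=
      T_eq (by omega) (by omega) (by omega) (by omega) (by omega)
    have h3 : T n e o (k + 1) P = t (w + 2) (q + 1) (pp) (a) (oo) :=
      T_eq (by omega) (by omega) (by omega) (by omega) (by omega)
    have h4 : T n e o (k + 1) P = t (w + 2) (q + 1) (pp) (a) (oo) :=
      T_eq (by omega) (by omega) (by omega) (by omega) (by omega)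
    rw [h1, h2, h3]
    exact kk_b0 w q pp a oo
  · subst hD
    rw [show (P + (P + 1)) / 2 = P by omega,
      show P + (P + 1) - P = (P + 1) by omega]
    obtain ⟨w, hw⟩ := Int.eq_ofNat_of_zero_le (show (0 : ℤ) ≤ n - e - o - 2 * k + P - 3 by omega)
    obtain ⟨q, hq⟩ := Int.eq_ofNat_of_zero_le (show (0 : ℤ) ≤ k - P by omega)
    obtain ⟨pp, hpp⟩ := Int.eq_ofNat_of_zero_le (show (0 : ℤ) ≤ P by omega)
    obtain ⟨a, ha⟩ := Int.eq_ofNat_of_zero_le (show (0 : ℤ) ≤ e - P - 1 by omega)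
    obtain ⟨oo, hoo⟩ := Int.eq_ofNat_of_zero_le (show (0 : ℤ) ≤ o - 1 by omega)
    have h1 : T n e o k P = t (w + 3) (q) (pp) (a + 1) (oo) :=
      T_eq (by omega) (by omega) (by omega) (by omega) (by omega)
    have h2 : T n e o (k + 2) (P + 1) = t (w) (q + 1) (pp + 1) (a) (oo) :=
      T_eq (by omega) (by omega) (by omega) (by omega) (by omega)
    have h3 : T n e o (k + 1) P = t (w + 1) (q + 1) (pp) (a + 1) (oo) :=
      T_eq (by omega) (by omega) (by omega) (by omega) (by omega)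
    have h4 : T n e o (k + 1) (P + 1) = t (w + 2) (q) (pp + 1) (a) (oo) :=
      T_eq (by omega) (by omega) (by omega) (by omega) (by omega)
    rw [h1, h2, h3, h4]
    exact kk_b1 w q pp a oo
  · subst hD
    rw [show (P + (P + 2)) / 2 = (P + 1) by omega,
      show P + (P + 2) - (P + 1) = (P + 1) by omega]
    obtain ⟨w, hw⟩ := Int.eq_ofNat_of_zero_le (show (0 : ℤ) ≤ n - e - o - 2 * k + P - 2 by omega)
    obtain ⟨q, hq⟩ := Int.eq_ofNat_of_zero_le (show (0 : ℤ) ≤ k - P by omega)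
    obtain ⟨pp, hpp⟩ := Int.eq_ofNat_of_zero_le (show (0 : ℤ) ≤ P by omega)
    obtain ⟨a, ha⟩ := Int.eq_ofNat_of_zero_le (show (0 : ℤ) ≤ e - P - 2 by omega)
    obtain ⟨oo, hoo⟩ := Int.eq_ofNat_of_zero_le (show (0 : ℤ) ≤ o - 1 by omega)
    have h1 : T n e o k P = t (w + 2) (q) (pp) (a + 2) (oo) :=
      T_eq (by omega) (by omega) (by omega) (by omega) (by omega)
    have h2 : T n e o (k + 2) (P + 2) = t (w) (q) (pp + 2) (a) (oo) :=
      T_eq (by omega) (by omega) (by omega) (by omega) (by omega)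
    have h3 : T n e o (k + 1) (P + 1) = t (w + 1) (q) (pp + 1) (a + 1) (oo) :=
      T_eq (by omega) (by omega) (by omega) (by omega) (by omega)
    have h4 : T n e o (k + 1) (P + 1) = t (w + 1) (q) (pp + 1) (a + 1) (oo) :=
      T_eq (by omega) (by omega) (by omega) (by omega) (by omega)
    rw [h1, h2, h3]
    exact kk_b2 w q pp a oo
  · subst hD
    rw [show (P + (P + 3)) / 2 = (P + 1) by omega,
      show P + (P + 3) - (P + 1) = (P + 2) by omega]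
    obtain ⟨w, hw⟩ := Int.eq_ofNat_of_zero_le (show (0 : ℤ) ≤ n - e - o - 2 * k + P - 1 by omega)
    obtain ⟨q, hq⟩ := Int.eq_ofNat_of_zero_le (show (0 : ℤ) ≤ k - P - 1 by omega)
    obtain ⟨pp, hpp⟩ := Int.eq_ofNat_of_zero_le (show (0 : ℤ) ≤ P by omega)
    obtain ⟨a, ha⟩ := Int.eq_ofNat_of_zero_le (show (0 : ℤ) ≤ e - P - 3 by omega)
    obtain ⟨oo, hoo⟩ := Int.eq_ofNat_of_zero_le (show (0 : ℤ) ≤ o - 1 by omega)
    have h1 : T n e o k P = t (w + 1) (q + 1) (pp) (a + 3) (oo) :=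
      T_eq (by omega) (by omega) (by omega) (by omega) (by omega)
    have h2 : T n e o (k + 2) (P + 3) = t (w) (q) (pp + 3) (a) (oo) :=
      T_eq (by omega) (by omega) (by omega) (by omega) (by omega)
    have h3 : T n e o (k + 1) (P + 1) = t (w) (q + 1) (pp + 1) (a + 2) (oo) :=
      T_eq (by omega) (by omega) (by omega) (by omega) (by omega)
    have h4 : T n e o (k + 1) (P + 2) = t (w + 1) (q) (pp + 2) (a + 1) (oo) :=
      T_eq (by omega) (by omega) (by omega) (by omega) (by omega)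
    rw [h1, h2, h3, h4]
    exact kk_b3 w q pp a oo
  · subst hD
    rw [show (P + (P + 4)) / 2 = (P + 2) by omega,
      show P + (P + 4) - (P + 2) = (P + 2) by omega]
    obtain ⟨w, hw⟩ := Int.eq_ofNat_of_zero_le (show (0 : ℤ) ≤ n - e - o - 2 * k + P by omega)
    obtain ⟨q, hq⟩ := Int.eq_ofNat_of_zero_le (show (0 : ℤ) ≤ k - P - 2 by omega)
    obtain ⟨pp, hpp⟩ := Int.eq_ofNat_of_zero_le (show (0 : ℤ) ≤ P by omega)
    obtain ⟨a, ha⟩ := Int.eq_ofNat_of_zero_le (show (0 : ℤ) ≤ e - P - 4 by omega)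
    obtain ⟨oo, hoo⟩ := Int.eq_ofNat_of_zero_le (show (0 : ℤ) ≤ o - 1 by omega)
    have h1 : T n e o k P = t (w) (q + 2) (pp) (a + 4) (oo) :=
      T_eq (by omega) (by omega) (by omega) (by omega) (by omega)
    have h2 : T n e o (k + 2) (P + 4) = t (w) (q) (pp + 4) (a) (oo) :=
      T_eq (by omega) (by omega) (by omega) (by omega) (by omega)
    have h3 : T n e o (k + 1) (P + 2) = t (w) (q + 1) (pp + 2) (a + 2) (oo) :=
      T_eq (by omega) (by omega) (by omega) (by omega) (by omega)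
    have h4 : T n e o (k + 1) (P + 2) = t (w) (q + 1) (pp + 2) (a + 2) (oo) :=
      T_eq (by omega) (by omega) (by omega) (by omega) (by omega)
    rw [h1, h2, h3]
    exact kk_b4 w q pp a oo

theorem kl_kk (n e o k P Q : ℤ) :
    T n e o k P * T n e o (k + 2) Q
      ≤ T n e o (k + 1) ((P + Q) / 2) * T n e o (k + 1) (P + Q - (P + Q) / 2) :=
  kl_assemble (fun P => T n e o k P) (fun Q => T n e o (k + 2) Q)
    (fun P => T n e o (k + 1) P) (fun Q => T n e o (k + 1) Q) (-1) (5) (by norm_num)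
    (fun P Q h => klu_kk n e o k P Q h) (fun P Q h => kld_kk n e o k P Q (by linarith))
    (fun P Q h1 h2 => klb_kk n e o k P Q h1 h2) P Q

end BD.T
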