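import Pool.Agent.MP_8b309d_co.TInt

/-! automatically generated: pointwise inequalities for the relation `og` -/

namespace BD.T

theorem og_c1_e0 (w q p a o : ℕ) :
    t (w + 1) (q + 1) (p) (a) (o) * t (w) (q) (p) (a) (o + 3)
      ≤ t (w) (q + 1) (p) (a) (o + 1) * t (w + 1) (q) (p) (a) (o + 2) := by
  have ha : t (w) (q + 1) (p) (a) (o + 1) * ((1 * 1 * (o + 2) * 1 * 1 * 1 * ((2*q + a + 2*p + 2*o + 4) * (2*q + a + 2*p + 2*o + 5)) * 1 : ℕ) : ℚ)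
      = t (w + 1) (q + 1) (p) (a) (o) * (((q + a + p + o + 2) * (w + 2*q + a + 2*p + 2*o + 5) * 1 * 1 * 1 * 1 * 1 * (w + 1) : ℕ) : ℚ) := by
    unfold t
    exact comb8 (Fu1 _ _ (q + a + p + o + 2) (by omega) (by omega))
      (Fu1 _ _ (w + 2*q + a + 2*p + 2*o + 5) (by omega) (by omega))
      (Iu1 _ _ (o + 2) (by omega) (by omega))
      (s0 I _ _ (by omega))
      (s0 I _ _ (by omega))
      (s0 I _ _ (by omega))
      (Iu2 _ _ (2*q + a + 2*p + 2*o + 4) (2*q + a + 2*p + 2*o + 5) (by omega) (by omega) (by omega))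
      (Id1 _ _ (w + 1) (by omega) (by omega))
  have hb : t (w + 1) (q) (p) (a) (o + 2) * (((q + a + p + o + 3) * (w + 2*q + a + 2*p + 2*o + 7) * 1 * 1 * 1 * 1 * 1 * (w + 1) : ℕ) : ℚ)
      = t (w) (q) (p) (a) (o + 3) * ((1 * 1 * (o + 4) * 1 * 1 * 1 * ((2*q + a + 2*p + 2*o + 6) * (2*q + a + 2*p + 2*o + 7)) * 1 : ℕ) : ℚ) := by
    unfold t
    exact comb8 (Fd1 _ _ (q + a + p + o + 3) (by omega) (by omega))
      (Fd1 _ _ (w + 2*q + a + 2*p + 2*o + 7) (by omega) (by omega))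
      (Id1 _ _ (o + 4) (by omega) (by omega))
      (s0 I _ _ (by omega))
      (s0 I _ _ (by omega))
      (s0 I _ _ (by omega))
      (Id2 _ _ (2*q + a + 2*p + 2*o + 6) (2*q + a + 2*p + 2*o + 7) (by omega) (by omega) (by omega))
      (Iu1 _ _ (w + 1) (by omega) (by omega))
  have key : ∀ x0 x1 x2 x3 x4 x5 y0 y1 y2 y3 y4 y5 : ℕ, ∀ (g0 : y5 ≤ x2) (g1 : y0 ≤ x3) (g2 : y1 * y3 ≤ x0 * x4) (g3 : y2 * y4 ≤ x1 * x5),
      (1 * 1 * y0 * 1 * 1 * 1 * (y1 * y2) * 1) * (y3 * y4 * 1 * 1 * 1 * 1 * 1 * y5)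
        ≤ (x0 * x1 * 1 * 1 * 1 * 1 * 1 * x2) * (1 * 1 * x3 * 1 * 1 * 1 * (x4 * x5) * 1) := by
    intro x0 x1 x2 x3 x4 x5 y0 y1 y2 y3 y4 y5 g0 g1 g2 g3
    calc (1 * 1 * y0 * 1 * 1 * 1 * (y1 * y2) * 1) * (y3 * y4 * 1 * 1 * 1 * 1 * 1 * y5)
        = (y5) * (y0) * (y1 * y3) * (y2 * y4) := by ring
      _ ≤ (x2) * (x3) * (x0 * x4) * (x1 * x5) := (Nat.mul_le_mul (Nat.mul_le_mul (Nat.mul_le_mul g0 g1) g2) g3)
      _ = _ := by ring
  refine fin ha hb (t_pos _ _ _ _ _) (t_pos _ _ _ _ _) (by positivity) ?_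
  exact key (q + a + p + o + 2) (w + 2*q + a + 2*p + 2*o + 5) (w + 1) (o + 4) (2*q + a + 2*p + 2*o + 6) (2*q + a + 2*p + 2*o + 7) (o + 2) (2*q + a + 2*p + 2*o + 4) (2*q + a + 2*p + 2*o + 5) (q + a + p + o + 3) (w + 2*q + a + 2*p + 2*o + 7) (w + 1)
    (le_refl _)
    (by omega)
    (Nat.le.intro (k := a) (by ring))
    (Nat.le.intro (k := 2*w) (by ring))

theorem og_c1_g1 (w q p a o r : ℕ) :
    t (r + w + 2) (q) (r + p + 1) (a) (o) * t (w) (r + q) (p) (r + a + 1) (o + 3)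
      ≤ t (r + w + 1) (q) (r + p + 1) (a) (o + 1) * t (w + 1) (r + q) (p) (r + a + 1) (o + 2) := by
  have ha : t (r + w + 1) (q) (r + p + 1) (a) (o + 1) * ((1 * 1 * (o + 2) * 1 * 1 * 1 * ((2*r + 2*q + a + 2*p + 2*o + 4) * (2*r + 2*q + a + 2*p + 2*o + 5)) * 1 : ℕ) : ℚ)
      = t (r + w + 2) (q) (r + p + 1) (a) (o) * (((r + q + a + p + o + 2) * (3*r + w + 2*q + a + 2*p + 2*o + 6) * 1 * 1 * 1 * 1 * 1 * (r + w + 2) : ℕ) : ℚ) := by
    unfold t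
    exact comb8 (Fu1 _ _ (r + q + a + p + o + 2) (by omega) (by omega))
      (Fu1 _ _ (3*r + w + 2*q + a + 2*p + 2*o + 6) (by omega) (by omega))
      (Iu1 _ _ (o + 2) (by omega) (by omega))
      (s0 I _ _ (by omega))
      (s0 I _ _ (by omega))
      (s0 I _ _ (by omega))
      (Iu2 _ _ (2*r + 2*q + a + 2*p + 2*o + 4) (2*r + 2*q + a + 2*p + 2*o + 5) (by omega) (by omega) (by omega))
      (Id1 _ _ (r + w + 2) (by omega) (by omega))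
  have hb : t (w + 1) (r + q) (p) (r + a + 1) (o + 2) * (((2*r + q + a + p + o + 4) * (3*r + w + 2*q + a + 2*p + 2*o + 8) * 1 * 1 * 1 * 1 * 1 * (w + 1) : ℕ) : ℚ)
      = t (w) (r + q) (p) (r + a + 1) (o + 3) * ((1 * 1 * (o + 4) * 1 * 1 * 1 * ((3*r + 2*q + a + 2*p + 2*o + 7) * (3*r + 2*q + a + 2*p + 2*o + 8)) * 1 : ℕ) : ℚ) := by
    unfold t
    exact comb8 (Fd1 _ _ (2*r + q + a + p + o + 4) (by omega) (by omega))
      (Fd1 _ _ (3*r + w + 2*q + a + 2*p + 2*o + 8) (by omega) (by omega))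
      (Id1 _ _ (o + 4) (by omega) (by omega))
      (s0 I _ _ (by omega))
      (s0 I _ _ (by omega))
      (s0 I _ _ (by omega))
      (Id2 _ _ (3*r + 2*q + a + 2*p + 2*o + 7) (3*r + 2*q + a + 2*p + 2*o + 8) (by omega) (by omega) (by omega))
      (Iu1 _ _ (w + 1) (by omega) (by omega))
  have key : ∀ x0 x1 x2 x3 x4 x5 y0 y1 y2 y3 y4 y5 : ℕ, ∀ (g0 : y0 * y4 ≤ x1 * x3) (g1 : y1 * y2 * y3 ≤ x0 * x4 * x5) (g2 : y5 ≤ x2),
      (1 * 1 * y0 * 1 * 1 * 1 * (y1 * y2) * 1) * (y3 * y4 * 1 * 1 * 1 * 1 * 1 * y5)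
        ≤ (x0 * x1 * 1 * 1 * 1 * 1 * 1 * x2) * (1 * 1 * x3 * 1 * 1 * 1 * (x4 * x5) * 1) := by
    intro x0 x1 x2 x3 x4 x5 y0 y1 y2 y3 y4 y5 g0 g1 g2
    calc (1 * 1 * y0 * 1 * 1 * 1 * (y1 * y2) * 1) * (y3 * y4 * 1 * 1 * 1 * 1 * 1 * y5)
        = (y0 * y4) * (y1 * y2 * y3) * (y5) := by ring
      _ ≤ (x1 * x3) * (x0 * x4 * x5) * (x2) := (Nat.mul_le_mul (Nat.mul_le_mul g0 g1) g2)
      _ = _ := by ring
  refine fin ha hb (t_pos _ _ _ _ _) (t_pos _ _ _ _ _) (by positivity) ?_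
  exact key (r + q + a + p + o + 2) (3*r + w + 2*q + a + 2*p + 2*o + 6) (r + w + 2) (o + 4) (3*r + 2*q + a + 2*p + 2*o + 7) (3*r + 2*q + a + 2*p + 2*o + 8) (o + 2) (2*r + 2*q + a + 2*p + 2*o + 4) (2*r + 2*q + a + 2*p + 2*o + 5) (2*r + q + a + p + o + 4) (3*r + w + 2*q + a + 2*p + 2*o + 8) (w + 1)
    (Nat.le.intro (k := 6*r + 2*w + 4*q + 2*a + 4*p + 2*o + 8) (by ring))
    (Nat.le.intro (k := r^3 + q*r^2 + 3*a*r^2 + 2*a*q*r + a^2*r + p*r^2 + 2*p*a*r + o*r^2 + 2*o*a*r + 11*r^2 + 13*q*r + 4*q^2 + 20*a*r + 10*a*q + 4*a^2 + 13*p*r + 8*p*q + 10*p*a + 4*p^2 + 13*o*r + 8*o*q + 10*o*a + 8*o*p + 4*o^2 + 34*r + 24*q + 30*a + 24*p + 24*o + 32) (by ring))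
    (by omega)

theorem og_c2_e0 (w q p a o : ℕ) :
    t (w + 1) (q + 1) (p) (a) (o) * t (w) (q) (p) (a) (o + 3)
      ≤ t (w + 1) (q) (p) (a) (o + 2) * t (w) (q + 1) (p) (a) (o + 1) := by
  have ha : t (w + 1) (q) (p) (a) (o + 2) * ((1 * 1 * ((o + 2) * (o + 3)) * 1 * 1 * 1 * ((2*q + a + 2*p + 2*o + 4) * (2*q + a + 2*p + 2*o + 5)) * 1 : ℕ) : ℚ)
      = t (w + 1) (q + 1) (p) (a) (o) * (((q + a + p + o + 2) * ((w + 2*q + a + 2*p + 2*o + 5) * (w + 2*q + a + 2*p + 2*o + 6)) * 1 * 1 * 1 * (q + 1) * 1 * 1 : ℕ) : ℚ) := by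
    unfold t
    exact comb8 (Fu1 _ _ (q + a + p + o + 2) (by omega) (by omega))
      (Fu2 _ _ (w + 2*q + a + 2*p + 2*o + 5) (w + 2*q + a + 2*p + 2*o + 6) (by omega) (by omega) (by omega))
      (Iu2 _ _ (o + 2) (o + 3) (by omega) (by omega) (by omega))
      (s0 I _ _ (by omega))
      (s0 I _ _ (by omega))
      (Id1 _ _ (q + 1) (by omega) (by omega))
      (Iu2 _ _ (2*q + a + 2*p + 2*o + 4) (2*q + a + 2*p + 2*o + 5) (by omega) (by omega) (by omega))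
      (s0 I _ _ (by omega))
  have hb : t (w) (q + 1) (p) (a) (o + 1) * (((q + a + p + o + 3) * ((w + 2*q + a + 2*p + 2*o + 6) * (w + 2*q + a + 2*p + 2*o + 7)) * 1 * 1 * 1 * (q + 1) * 1 * 1 : ℕ) : ℚ)
      = t (w) (q) (p) (a) (o + 3) * ((1 * 1 * ((o + 3) * (o + 4)) * 1 * 1 * 1 * ((2*q + a + 2*p + 2*o + 6) * (2*q + a + 2*p + 2*o + 7)) * 1 : ℕ) : ℚ) := by
    unfold t
    exact comb8 (Fd1 _ _ (q + a + p + o + 3) (by omega) (by omega))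
      (Fd2 _ _ (w + 2*q + a + 2*p + 2*o + 6) (w + 2*q + a + 2*p + 2*o + 7) (by omega) (by omega) (by omega))
      (Id2 _ _ (o + 3) (o + 4) (by omega) (by omega) (by omega))
      (s0 I _ _ (by omega))
      (s0 I _ _ (by omega))
      (Iu1 _ _ (q + 1) (by omega) (by omega))
      (Id2 _ _ (2*q + a + 2*p + 2*o + 6) (2*q + a + 2*p + 2*o + 7) (by omega) (by omega) (by omega))
      (s0 I _ _ (by omega))
  have key : ∀ x0 x1 x2 x3 x4 x5 x6 x7 y0 y1 y2 y3 y4 y5 y6 y7 : ℕ, ∀ (g0 : y5 ≤ x2) (g1 : y7 ≤ x3) (g2 : y1 ≤ x4) (g3 : y0 ≤ x5) (g4 : y2 * y4 ≤ x0 * x6) (g5 : y3 * y6 ≤ x1 * x7),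
      (1 * 1 * (y0 * y1) * 1 * 1 * 1 * (y2 * y3) * 1) * (y4 * (y5 * y6) * 1 * 1 * 1 * y7 * 1 * 1)
        ≤ (x0 * (x1 * x2) * 1 * 1 * 1 * x3 * 1 * 1) * (1 * 1 * (x4 * x5) * 1 * 1 * 1 * (x6 * x7) * 1) := by
    intro x0 x1 x2 x3 x4 x5 x6 x7 y0 y1 y2 y3 y4 y5 y6 y7 g0 g1 g2 g3 g4 g5
    calc (1 * 1 * (y0 * y1) * 1 * 1 * 1 * (y2 * y3) * 1) * (y4 * (y5 * y6) * 1 * 1 * 1 * y7 * 1 * 1)
        = (y5) * (y7) * (y1) * (y0) * (y2 * y4) * (y3 * y6) := by ring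
      _ ≤ (x2) * (x3) * (x4) * (x5) * (x0 * x6) * (x1 * x7) := (Nat.mul_le_mul (Nat.mul_le_mul (Nat.mul_le_mul (Nat.mul_le_mul (Nat.mul_le_mul g0 g1) g2) g3) g4) g5)
      _ = _ := by ring
  refine fin ha hb (t_pos _ _ _ _ _) (t_pos _ _ _ _ _) (by positivity) ?_
  exact key (q + a + p + o + 2) (w + 2*q + a + 2*p + 2*o + 5) (w + 2*q + a + 2*p + 2*o + 6) (q + 1) (o + 3) (o + 4) (2*q + a + 2*p + 2*o + 6) (2*q + a + 2*p + 2*o + 7) (o + 2) (o + 3) (2*q + a + 2*p + 2*o + 4) (2*q + a + 2*p + 2*o + 5) (q + a + p + o + 3) (w + 2*q + a + 2*p + 2*o + 6) (w + 2*q + a + 2*p + 2*o + 7) (q + 1)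
    (le_refl _)
    (le_refl _)
    (le_refl _)
    (by omega)
    (Nat.le.intro (k := a) (by ring))
    (Nat.le.intro (k := 2*w) (by ring))

theorem og_c2_g1 (w q p a o r : ℕ) :
    t (w) (r + q + 2) (p) (r + a + 1) (o) * t (r + w) (q) (r + p + 1) (a) (o + 3)
      ≤ t (w) (r + q + 1) (p) (r + a + 1) (o + 2) * t (r + w) (q + 1) (r + p + 1) (a) (o + 1) := by
  have ha : t (w) (r + q + 1) (p) (r + a + 1) (o + 2) * ((1 * 1 * ((o + 2) * (o + 3)) * 1 * 1 * 1 * ((3*r + 2*q + a + 2*p + 2*o + 7) * (3*r + 2*q + a + 2*p + 2*o + 8)) * 1 : ℕ) : ℚ)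
      = t (w) (r + q + 2) (p) (r + a + 1) (o) * (((2*r + q + a + p + o + 4) * ((3*r + w + 2*q + a + 2*p + 2*o + 7) * (3*r + w + 2*q + a + 2*p + 2*o + 8)) * 1 * 1 * 1 * (r + q + 2) * 1 * 1 : ℕ) : ℚ) := by
    unfold t
    exact comb8 (Fu1 _ _ (2*r + q + a + p + o + 4) (by omega) (by omega))
      (Fu2 _ _ (3*r + w + 2*q + a + 2*p + 2*o + 7) (3*r + w + 2*q + a + 2*p + 2*o + 8) (by omega) (by omega) (by omega))
      (Iu2 _ _ (o + 2) (o + 3) (by omega) (by omega) (by omega))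
      (s0 I _ _ (by omega))
      (s0 I _ _ (by omega))
      (Id1 _ _ (r + q + 2) (by omega) (by omega))
      (Iu2 _ _ (3*r + 2*q + a + 2*p + 2*o + 7) (3*r + 2*q + a + 2*p + 2*o + 8) (by omega) (by omega) (by omega))
      (s0 I _ _ (by omega))
  have hb : t (r + w) (q + 1) (r + p + 1) (a) (o + 1) * (((r + q + a + p + o + 4) * ((3*r + w + 2*q + a + 2*p + 2*o + 8) * (3*r + w + 2*q + a + 2*p + 2*o + 9)) * 1 * 1 * 1 * (q + 1) * 1 * 1 : ℕ) : ℚ)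
      = t (r + w) (q) (r + p + 1) (a) (o + 3) * ((1 * 1 * ((o + 3) * (o + 4)) * 1 * 1 * 1 * ((2*r + 2*q + a + 2*p + 2*o + 8) * (2*r + 2*q + a + 2*p + 2*o + 9)) * 1 : ℕ) : ℚ) := by
    unfold t
    exact comb8 (Fd1 _ _ (r + q + a + p + o + 4) (by omega) (by omega))
      (Fd2 _ _ (3*r + w + 2*q + a + 2*p + 2*o + 8) (3*r + w + 2*q + a + 2*p + 2*o + 9) (by omega) (by omega) (by omega))
      (Id2 _ _ (o + 3) (o + 4) (by omega) (by omega) (by omega))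
      (s0 I _ _ (by omega))
      (s0 I _ _ (by omega))
      (Iu1 _ _ (q + 1) (by omega) (by omega))
      (Id2 _ _ (2*r + 2*q + a + 2*p + 2*o + 8) (2*r + 2*q + a + 2*p + 2*o + 9) (by omega) (by omega) (by omega))
      (s0 I _ _ (by omega))
  have key : ∀ x0 x1 x2 x3 x4 x5 x6 x7 y0 y1 y2 y3 y4 y5 y6 y7 : ℕ, ∀ (g0 : y5 ≤ x2) (g1 : y1 ≤ x4) (g2 : y0 * y6 ≤ x1 * x5) (g3 : y2 * y4 ≤ x0 * x6) (g4 : y3 * y7 ≤ x3 * x7),
      (1 * 1 * (y0 * y1) * 1 * 1 * 1 * (y2 * y3) * 1) * (y4 * (y5 * y6) * 1 * 1 * 1 * y7 * 1 * 1)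
        ≤ (x0 * (x1 * x2) * 1 * 1 * 1 * x3 * 1 * 1) * (1 * 1 * (x4 * x5) * 1 * 1 * 1 * (x6 * x7) * 1) := by
    intro x0 x1 x2 x3 x4 x5 x6 x7 y0 y1 y2 y3 y4 y5 y6 y7 g0 g1 g2 g3 g4
    calc (1 * 1 * (y0 * y1) * 1 * 1 * 1 * (y2 * y3) * 1) * (y4 * (y5 * y6) * 1 * 1 * 1 * y7 * 1 * 1)
        = (y5) * (y1) * (y0 * y6) * (y2 * y4) * (y3 * y7) := by ring
      _ ≤ (x2) * (x4) * (x1 * x5) * (x0 * x6) * (x3 * x7) := (Nat.mul_le_mul (Nat.mul_le_mul (Nat.mul_le_mul (Nat.mul_le_mul g0 g1) g2) g3) g4)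
      _ = _ := by ring
  refine fin ha hb (t_pos _ _ _ _ _) (t_pos _ _ _ _ _) (by positivity) ?_
  exact key (2*r + q + a + p + o + 4) (3*r + w + 2*q + a + 2*p + 2*o + 7) (3*r + w + 2*q + a + 2*p + 2*o + 8) (r + q + 2) (o + 3) (o + 4) (2*r + 2*q + a + 2*p + 2*o + 8) (2*r + 2*q + a + 2*p + 2*o + 9) (o + 2) (o + 3) (3*r + 2*q + a + 2*p + 2*o + 7) (3*r + 2*q + a + 2*p + 2*o + 8) (r + q + a + p + o + 4) (3*r + w + 2*q + a + 2*p + 2*o + 8) (3*r + w + 2*q + a + 2*p + 2*o + 9) (q + 1)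
    (le_refl _)
    (le_refl _)
    (Nat.le.intro (k := 6*r + 2*w + 4*q + 2*a + 4*p + 2*o + 10) (by ring))
    (Nat.le.intro (k := r^2 + q*r + p*r + o*r + 5*r + q + a + p + o + 4) (by ring))
    (Nat.le.intro (k := 2*r^2 + q*r + a*r + 2*p*r + 2*o*r + 10*r + 3*q + a + 2*p + 2*o + 10) (by ring))

theorem ad_og (n e o k P Q : ℤ) :
    T n e o k P * T n e (o + 3) (k - 1) Q
      ≤ T n e (o + 1) k (max P Q) * T n e (o + 2) (k - 1) (min P Q) := by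
  refine T_red (mul_nonneg (T_nonneg _ _ _ _ _) (T_nonneg _ _ _ _ _)) ?_
  rintro ⟨a1, a2, a3, a4, a5⟩ ⟨b1, b2, b3, b4, b5⟩
  rcases le_total Q P with hqp | hqp
  · rw [max_eq_left hqp, min_eq_right hqp]
    rcases (show P = Q + 0 ∨ Q + 1 ≤ P by omega) with hr | hr
    ·
      obtain ⟨w, hw⟩ := Int.eq_ofNat_of_zero_le (show (0 : ℤ) ≤ n - e - o - 2 * k + P - 1 by omega)
      obtain ⟨q, hq⟩ := Int.eq_ofNat_of_zero_le (show (0 : ℤ) ≤ k - P - 1 by omega)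
      obtain ⟨pp, hpp⟩ := Int.eq_ofNat_of_zero_le (show (0 : ℤ) ≤ P by omega)
      obtain ⟨a, ha⟩ := Int.eq_ofNat_of_zero_le (show (0 : ℤ) ≤ e - P by omega)
      obtain ⟨oo, hoo⟩ := Int.eq_ofNat_of_zero_le (show (0 : ℤ) ≤ o - 1 by omega)
      have h1 : T n e o k P = t (w + 1) (q + 1) (pp) (a) (oo) :=
        T_eq (by omega) (by omega) (by omega) (by omega) (by omega)
      have h2 : T n e (o + 3) (k - 1) Q = t (w) (q) (pp) (a) (oo + 3) :=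
        T_eq (by omega) (by omega) (by omega) (by omega) (by omega)
      have h3 : T n e (o + 1) k P = t (w) (q + 1) (pp) (a) (oo + 1) :=
        T_eq (by omega) (by omega) (by omega) (by omega) (by omega)
      have h4 : T n e (o + 2) (k - 1) Q = t (w + 1) (q) (pp) (a) (oo + 2) :=
        T_eq (by omega) (by omega) (by omega) (by omega) (by omega)
      rw [h1, h2, h3, h4]
      have hc := og_c1_e0 w q pp a oo
      exact hc
    obtain ⟨r, hr2⟩ := Int.eq_ofNat_of_zero_le (show (0 : ℤ) ≤ P - Q - 1 by omega)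
    obtain ⟨w, hw⟩ := Int.eq_ofNat_of_zero_le (show (0 : ℤ) ≤ n - e - o - 2 * k + P - 2 - r by omega)
    obtain ⟨q, hq⟩ := Int.eq_ofNat_of_zero_le (show (0 : ℤ) ≤ k - P by omega)
    obtain ⟨pp, hpp⟩ := Int.eq_ofNat_of_zero_le (show (0 : ℤ) ≤ P - 1 - r by omega)
    obtain ⟨a, ha⟩ := Int.eq_ofNat_of_zero_le (show (0 : ℤ) ≤ e - P by omega)
    obtain ⟨oo, hoo⟩ := Int.eq_ofNat_of_zero_le (show (0 : ℤ) ≤ o - 1 by omega)
    have h1 : T n e o k P = t (r + w + 2) (q) (r + pp + 1) (a) (oo) :=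
      T_eq (by omega) (by omega) (by omega) (by omega) (by omega)
    have h2 : T n e (o + 3) (k - 1) Q = t (w) (r + q) (pp) (r + a + 1) (oo + 3) :=
      T_eq (by omega) (by omega) (by omega) (by omega) (by omega)
    have h3 : T n e (o + 1) k P = t (r + w + 1) (q) (r + pp + 1) (a) (oo + 1) :=
      T_eq (by omega) (by omega) (by omega) (by omega) (by omega)
    have h4 : T n e (o + 2) (k - 1) Q = t (w + 1) (r + q) (pp) (r + a + 1) (oo + 2) :=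
      T_eq (by omega) (by omega) (by omega) (by omega) (by omega)
    rw [h1, h2, h3, h4]
    have hc := og_c1_g1 w q pp a oo r
    exact hc
  · rw [max_eq_right hqp, min_eq_left hqp]
    rcases (show Q = P + 0 ∨ P + 1 ≤ Q by omega) with hr | hr
    ·
      obtain ⟨w, hw⟩ := Int.eq_ofNat_of_zero_le (show (0 : ℤ) ≤ n - e - o - 2 * k + P - 1 by omega)
      obtain ⟨q, hq⟩ := Int.eq_ofNat_of_zero_le (show (0 : ℤ) ≤ k - P - 1 by omega)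
      obtain ⟨pp, hpp⟩ := Int.eq_ofNat_of_zero_le (show (0 : ℤ) ≤ P by omega)
      obtain ⟨a, ha⟩ := Int.eq_ofNat_of_zero_le (show (0 : ℤ) ≤ e - P by omega)
      obtain ⟨oo, hoo⟩ := Int.eq_ofNat_of_zero_le (show (0 : ℤ) ≤ o - 1 by omega)
      have h1 : T n e o k P = t (w + 1) (q + 1) (pp) (a) (oo) :=
        T_eq (by omega) (by omega) (by omega) (by omega) (by omega)
      have h2 : T n e (o + 3) (k - 1) Q = t (w) (q) (pp) (a) (oo + 3) :=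
        T_eq (by omega) (by omega) (by omega) (by omega) (by omega)
      have h3 : T n e (o + 2) (k - 1) P = t (w + 1) (q) (pp) (a) (oo + 2) :=
        T_eq (by omega) (by omega) (by omega) (by omega) (by omega)
      have h4 : T n e (o + 1) k Q = t (w) (q + 1) (pp) (a) (oo + 1) :=
        T_eq (by omega) (by omega) (by omega) (by omega) (by omega)
      rw [h1, h2, h3, h4]
      have hc := og_c2_e0 w q pp a oo
      exact hc.trans (le_of_eq (mul_comm _ _))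
    obtain ⟨r, hr2⟩ := Int.eq_ofNat_of_zero_le (show (0 : ℤ) ≤ Q - P - 1 by omega)
    obtain ⟨w, hw⟩ := Int.eq_ofNat_of_zero_le (show (0 : ℤ) ≤ n - e - o - 2 * k + P by omega)
    obtain ⟨q, hq⟩ := Int.eq_ofNat_of_zero_le (show (0 : ℤ) ≤ k - P - 2 - r by omega)
    obtain ⟨pp, hpp⟩ := Int.eq_ofNat_of_zero_le (show (0 : ℤ) ≤ P by omega)
    obtain ⟨a, ha⟩ := Int.eq_ofNat_of_zero_le (show (0 : ℤ) ≤ e - P - 1 - r by omega)
    obtain ⟨oo, hoo⟩ := Int.eq_ofNat_of_zero_le (show (0 : ℤ) ≤ o - 1 by omega)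
    have h1 : T n e o k P = t (w) (r + q + 2) (pp) (r + a + 1) (oo) :=
      T_eq (by omega) (by omega) (by omega) (by omega) (by omega)
    have h2 : T n e (o + 3) (k - 1) Q = t (r + w) (q) (r + pp + 1) (a) (oo + 3) :=
      T_eq (by omega) (by omega) (by omega) (by omega) (by omega)
    have h3 : T n e (o + 2) (k - 1) P = t (w) (r + q + 1) (pp) (r + a + 1) (oo + 2) :=
      T_eq (by omega) (by omega) (by omega) (by omega) (by omega)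
    have h4 : T n e (o + 1) k Q = t (r + w) (q + 1) (r + pp + 1) (a) (oo + 1) :=
      T_eq (by omega) (by omega) (by omega) (by omega) (by omega)
    rw [h1, h2, h3, h4]
    have hc := og_c2_g1 w q pp a oo r
    exact hc.trans (le_of_eq (mul_comm _ _))

end BD.T
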